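import Pool.Agent.C4U.Stmts

namespace Pool.Agent.C4U.H15

open Pool.Agent.C4U

theorem nsb (h1 : CnlStmt) : NsbStmt := by
  obtain ⟨hle, hdc, -, -, -⟩ := h1
  intro V P R
  refine ⟨fun x => ?_, fun y => ?_, ?_⟩
  · exact hle _ _
  · exact hle _ _
  · intro x y hx hPx hxy
    by_contra hcon
    have hlt : V.rr R x < V.tt P R y := Nat.lt_of_not_le hcon
    have hd : ∀ u v, u ≤ v → (∀ x < V.N, P x → V.Cl x y → v < V.rr R x) →
        (∀ x < V.N, P x → V.Cl x y → u < V.rr R x) := by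
      intro u v huv hv x hx hP hc
      exact lt_of_le_of_lt huv (hv x hx hP hc)
    have h2 := (hdc (fun v => ∀ x < V.N, P x → V.Cl x y → v < V.rr R x) (V.N + 1) hd).1
      (V.rr R x) hlt
    exact absurd (h2 x hx hPx hxy) (lt_irrefl _)

end Pool.Agent.C4U.H15
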